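import Mathlib
import Pool.Agent.Lib.helper18.Markov

set_option autoImplicit false

open MeasureTheory Filter
open scoped ENNReal unitInterval

namespace Pool.Agent.Results.MP_0b3b8e_pr.NoMonopoly

/-- Probability of a black ball. -/
noncomputable def pb (W : ℕ → ℝ) (B R : ℕ) : ℝ := W B / (W B + W R)

/-- Compositions `(B_n, R_n)` of the `d` urns, driven by uniform variables `ω n i`. -/
noncomputable def urn {d : ℕ} (W : ℕ → ℝ) (s0 : (Fin d → ℕ) × (Fin d → ℕ))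
    (ω : ℕ → Fin d → I) : ℕ → (Fin d → ℕ) × (Fin d → ℕ)
  | 0 => s0
  | n + 1 =>
    (fun i => (urn W s0 ω n).1 i +
        if (ω n i : ℝ) < pb W (∑ j, (urn W s0 ω n).1 j) (∑ j, (urn W s0 ω n).2 j) then 1 else 0,
     fun i => (urn W s0 ω n).2 i +
        if (ω n i : ℝ) < pb W (∑ j, (urn W s0 ω n).1 j) (∑ j, (urn W s0 ω n).2 j) then 0 else 1)

/-- The monopoly event. -/
def monopoly {d : ℕ} (W : ℕ → ℝ) (s0 : (Fin d → ℕ) × (Fin d → ℕ)) : Set (ℕ → Fin d → I) :=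
  {ω | (∀ᶠ n in atTop, ∑ j, (urn W s0 ω (n + 1)).2 j = ∑ j, (urn W s0 ω n).2 j) ∨
    (∀ᶠ n in atTop, ∑ j, (urn W s0 ω (n + 1)).1 j = ∑ j, (urn W s0 ω n).1 j)}

/-- Law of independent uniform variables `ω n i`. -/
noncomputable def unif (d : ℕ) : Measure (ℕ → Fin d → I) :=
  Measure.infinitePi fun _ : ℕ => Measure.pi fun _ : Fin d => (volume : Measure I)

noncomputable def WW (n : ℕ) : ℝ :=
  if n % 2 = 1 then 32 ^ Nat.log 4 n else if n = 4 ^ Nat.log 4 n then 16 ^ Nat.log 4 n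
  else 256 ^ (Nat.log 4 n + 1)

lemma WW_ge (n : ℕ) : 16 ^ Nat.log 4 n ≤ WW n := by
  unfold WW
  split_ifs
  · gcongr; norm_num
  · exact le_rfl
  · calc (16 : ℝ) ^ Nat.log 4 n ≤ 256 ^ Nat.log 4 n := by gcongr; norm_num
      _ ≤ _ := pow_le_pow_right₀ (by norm_num) (by omega)

lemma WW_pos (n : ℕ) : 0 < WW n := lt_of_lt_of_le (by positivity) (WW_ge n)

lemma WW_sum : Summable fun n => 1 / WW n := by
  rw [← summable_nat_add_iff 1]
  have h := (summable_nat_add_iff 1).2 ((Real.summable_one_div_nat_pow.2 one_lt_two).mul_left 16)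
  refine Summable.of_nonneg_of_le (fun n => (one_div_pos.2 (WW_pos _)).le) (fun n => ?_) h
  have h1 := WW_ge (n + 1)
  have h2 : n + 1 < 4 ^ (Nat.log 4 (n + 1) + 1) := Nat.lt_pow_succ_log_self (by norm_num) _
  have h3 : ((n + 1 : ℕ) : ℝ) ≤ 4 ^ (Nat.log 4 (n + 1) + 1) := by exact_mod_cast h2.le
  have h4 : ((n + 1 : ℕ) : ℝ) ^ 2 ≤ 16 * 16 ^ Nat.log 4 (n + 1) := by
    calc _ ≤ ((4 : ℝ) ^ (Nat.log 4 (n + 1) + 1)) ^ 2 := by gcongr
      _ = _ := by rw [← pow_mul, mul_comm, pow_mul, pow_succ]; norm_num [mul_comm]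
  rw [mul_one_div, div_le_div_iff₀ (WW_pos _) (by positivity)]
  linarith

lemma log_eq {k n : ℕ} (h1 : 4 ^ k ≤ n) (h2 : n < 4 * 4 ^ k) : Nat.log 4 n = k :=
  Nat.log_eq_of_pow_le_of_lt_pow h1 (by rw [pow_succ]; omega)

lemma even4 {k : ℕ} (hk : 1 ≤ k) : 4 ^ k % 2 = 0 ∧ 4 ≤ 4 ^ k := by
  obtain ⟨j, rfl⟩ := Nat.exists_eq_add_of_le hk
  have := Nat.one_le_pow j 4 (by norm_num)
  rw [pow_add]; omega

lemma W_trap {k : ℕ} (hk : 1 ≤ k) : WW (4 ^ k) = (2 ^ k) ^ 4 := by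
  have := even4 hk
  unfold WW
  rw [if_neg (by omega), Nat.log_pow (by norm_num), if_pos rfl, ← pow_mul, mul_comm, pow_mul]
  norm_num

lemma W_odd {k x : ℕ} (h0 : x % 2 = 1) (h1 : 4 ^ k < x) (h2 : x < 4 * 4 ^ k) :
    WW x = (2 ^ k) ^ 5 := by
  unfold WW
  rw [if_pos h0, log_eq h1.le h2, ← pow_mul, mul_comm, pow_mul]
  norm_num

lemma W_even {k x : ℕ} (h0 : x % 2 = 0) (h1 : 4 ^ k < x) (h2 : x < 4 * 4 ^ k) :
    WW x = 256 * (2 ^ k) ^ 8 := by
  unfold WW
  rw [if_neg (by omega), log_eq h1.le h2, if_neg (by omega), ← pow_mul, mul_comm k, pow_mul,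
    pow_succ]
  norm_num [mul_comm]

noncomputable def hh (k x : ℕ) : ℝ := 1 / (1 + (4 * 4 ^ k + 1 - x) / (4 * 2 ^ k))

noncomputable def ee (k x : ℕ) : ℝ := (4 * 4 ^ k - x) / (8 * (2 ^ k) ^ 3)

def CC (t x : ℕ) (v : ℝ) : Prop := ∃ k, 1 ≤ k ∧ 4 ^ k < x ∧ x < 4 * 4 ^ k ∧
  ((t = 4 ^ k ∧ x % 2 = 1 ∧ hh k x + 3076 / 2 ^ k ≤ v) ∨
   (t = 4 ^ k + 1 ∧ x % 2 = 0 ∧ ee k x + 2563 / 2 ^ k ≤ v) ∨
   (t = 4 * 4 ^ k ∧ x % 2 = 1 ∧ hh k x + 2561 / 2 ^ k ≤ v) ∨
   (t = 4 * 4 ^ k + 1 ∧ x % 2 = 0 ∧ ee k x + 2048 / 2 ^ k ≤ v))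

def Cert (B R : ℕ) (v : ℝ) : Prop := CC B R v ∨ CC R B v

def Bd (B R : ℕ) (v : ℝ) : Prop := 0 ≤ v ∧ (1 ≤ v ∨ Cert B R v)

lemma four_eq (k : ℕ) : (4 : ℝ) ^ k = (2 ^ k) ^ 2 := by
  rw [← pow_mul, mul_comm, pow_mul]; norm_num

lemma hh_start (k : ℕ) : hh k (4 ^ k + 1) ≤ 2 / 2 ^ k := by
  unfold hh
  push_cast
  rw [four_eq]
  have : (0 : ℝ) < 2 ^ k := by positivity
  generalize (2 : ℝ) ^ k = y at *
  rw [show (4 * y ^ 2 + 1 - (y ^ 2 + 1)) / (4 * y) = 3 * y / 4 by field_simp; ring,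
    div_le_div_iff₀ (by positivity) this]
  linarith

lemma hh_pos {k x : ℕ} (h : x ≤ 4 * 4 ^ k + 1) : 0 < hh k x := by
  have : (x : ℝ) ≤ 4 * 4 ^ k + 1 := by exact_mod_cast h
  have : 0 ≤ 4 * (4 : ℝ) ^ k + 1 - x := by linarith
  unfold hh
  positivity

lemma hh_step {k x : ℕ} (h : x + 2 ≤ 4 * 4 ^ k + 1) :
    (1 - 1 / (2 * 2 ^ k)) * hh k (x + 2) ≤ hh k x := by
  have : (x : ℝ) + 2 ≤ 4 * 4 ^ k + 1 := by exact_mod_cast h
  unfold hh
  push_cast
  have hy : (0 : ℝ) < 2 ^ k := by positivity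
  generalize (2 : ℝ) ^ k = y at *
  obtain ⟨r, hr, e⟩ : ∃ r : ℝ, 0 ≤ r ∧ 4 * (4 : ℝ) ^ k + 1 = r + x + 2 :=
    ⟨4 * 4 ^ k + 1 - x - 2, by linarith, by ring⟩
  rw [e, show r + x + 2 - (x + 2) = r by ring, show r + x + 2 - x = r + 2 by ring, mul_one_div,
    div_le_div_iff₀ (by positivity) (by positivity)]
  have : (1 + r / (4 * y)) - (1 - 1 / (2 * y)) * (1 + (r + 2) / (4 * y)) =
      (r + 2) / (8 * y ^ 2) := by field_simp; ring
  have : 0 ≤ (r + 2) / (8 * y ^ 2) := by positivity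
  linarith

lemma ee_bd {k x : ℕ} (h : x ≤ 4 * 4 ^ k) : 0 ≤ ee k x ∧ ee k x ≤ 1 / 2 ^ k := by
  have : (x : ℝ) ≤ 4 * 4 ^ k := by exact_mod_cast h
  have h0 : (0 : ℝ) ≤ x := Nat.cast_nonneg x
  unfold ee
  rw [four_eq] at *
  have hy : (0 : ℝ) < 2 ^ k := by positivity
  generalize (2 : ℝ) ^ k = y at *
  refine ⟨div_nonneg (by linarith) (by positivity), ?_⟩
  rw [div_le_div_iff₀ (by positivity) hy]
  nlinarith [mul_nonneg h0 hy.le, pow_pos hy 3]

lemma entry {k : ℕ} (hk : 1 ≤ k) {v : ℝ} (hv : 4096 / 2 ^ k ≤ v) : CC (4 ^ k) (4 ^ k + 1) v := by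
  have h4 := even4 hk
  refine ⟨k, hk, by omega, by omega, Or.inl ⟨rfl, by omega, ?_⟩⟩
  have := hh_start k
  have hy : (0 : ℝ) < 1 / 2 ^ k := by positivity
  rw [div_eq_mul_one_div] at this hv ⊢
  linarith

lemma entry' {k : ℕ} (hk : 1 ≤ k) {v : ℝ} (hv : 2048 / 2 ^ k ≤ v) :
    CC (4 * 4 ^ k) (4 * 4 ^ k + 1) v := by
  have := entry (k := k + 1) (by omega) (v := v) (by rw [pow_succ]; convert hv using 1; field_simp; norm_num)
  rwa [pow_succ, mul_comm] at this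

lemma entry2 {k : ℕ} (hk : 1 ≤ k) {v : ℝ} (hv : 2563 / 2 ^ k ≤ v) :
    CC (4 * 4 ^ k) (4 ^ k + 1) v := by
  have h4 := even4 hk
  refine ⟨k, hk, by omega, by omega, Or.inr (Or.inr (Or.inl ⟨rfl, by omega, ?_⟩))⟩
  have := hh_start k
  rw [div_eq_mul_one_div] at this hv ⊢
  linarith

lemma ineqA {q z h h' c : ℝ} (hz : 0 < z) (q0 : z / 2 ≤ q) (q1 : q ≤ 16 * z) (q2 : q ≤ 1)
    (h0 : 0 ≤ h') (hc : 0 ≤ c) (hs : (1 - z / 2) * h' ≤ h) :
    q ^ 2 * 1 + 2 * q * (1 - q) * c + (1 - q) ^ 2 * (h' + 512 * z + c) ≤ h + 512 * z + c := by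
  have e1 : (1 - q) ^ 2 ≤ 1 - z / 2 := by nlinarith
  have e2 : q ^ 2 ≤ 256 * z ^ 2 := by nlinarith
  nlinarith [mul_le_mul_of_nonneg_right e1 h0, mul_le_mul_of_nonneg_right e1 hz.le,
    mul_nonneg (sq_nonneg q) hc]

lemma ineqB {q c : ℝ} (q0 : 0 ≤ q) (q2 : q ≤ 1) (hc : 0 ≤ c) :
    q ^ 2 * 1 + 2 * q * (1 - q) * 1 + (1 - q) ^ 2 * c ≤ 2 * q + c := by
  nlinarith [mul_nonneg (mul_nonneg q0 (show 0 ≤ 2 - q by linarith)) hc, sq_nonneg q]

lemma pb_bd (B R : ℕ) : 0 ≤ pb WW B R ∧ pb WW B R ≤ 1 := by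
  have := WW_pos B; have := WW_pos R
  unfold pb
  exact ⟨by positivity, (div_le_one (by positivity)).2 (by linarith)⟩

lemma CC_step {t x : ℕ} {v : ℝ} (h : CC t x v) : ∃ a b c, Bd (t + 2) x a ∧ Bd (t + 1) (x + 1) b ∧
    Bd t (x + 2) c ∧ pb WW t x ^ 2 * a + 2 * pb WW t x * (1 - pb WW t x) * b +
      (1 - pb WW t x) ^ 2 * c ≤ v := by
  obtain ⟨k, hk, x0, x1, h⟩ := h
  have h4 := even4 hk
  have hq := pb_bd t x
  have hy : (1 : ℝ) ≤ 2 ^ k := one_le_pow₀ (by norm_num)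
  have hz : (0 : ℝ) < 1 / 2 ^ k := by positivity
  have one : ∀ s r, Bd s r 1 := fun _ _ => ⟨zero_le_one, Or.inl le_rfl⟩
  have hend : hh k (4 * 4 ^ k + 1) = 1 := by simp [hh]
  have eend : ee k (4 * 4 ^ k) = 0 := by simp [ee]
  have estep : ee k x = ee k (x + 2) + 2 * (1 / (8 * (2 ^ k) ^ 3)) := by
    unfold ee; push_cast; ring
  have hhalf : 1 / (2 * (2 : ℝ) ^ k) = 1 / 2 ^ k / 2 := by field_simp
  rcases h with ⟨rfl, hx, hv⟩ | ⟨rfl, hx, hv⟩ | ⟨rfl, hx, hv⟩ | ⟨rfl, hx, hv⟩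
  · have hp := hh_pos (k := k) (x := x + 2) (by omega)
    have hs := hh_step (k := k) (x := x) (by omega)
    have he := ee_bd (k := k) (x := x + 1) (by omega)
    have e : pb WW (4 ^ k) x = 1 / (1 + 2 ^ k) := by
      rw [pb, W_trap hk, W_odd hx x0 x1]; field_simp
    refine ⟨1, 2564 * (1 / 2 ^ k), hh k (x + 2) + 512 * (1 / 2 ^ k) + 2564 * (1 / 2 ^ k),
      one _ _, ⟨by positivity, Or.inr ?_⟩, ⟨by positivity, ?_⟩, ?_⟩
    · by_cases h1 : x + 1 < 4 * 4 ^ k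
      · exact Or.inl ⟨k, hk, by omega, h1, Or.inr (Or.inl ⟨rfl, by omega, by
          rw [div_eq_mul_one_div]; linarith⟩)⟩
      · rw [show x + 1 = 4 * 4 ^ k by omega]
        exact Or.inr (entry2 hk (by rw [div_eq_mul_one_div]; linarith))
    · by_cases h1 : x + 2 < 4 * 4 ^ k
      · exact Or.inr (Or.inl ⟨k, hk, by omega, h1, Or.inl ⟨rfl, by omega, by
          rw [div_eq_mul_one_div]; linarith⟩⟩)
      · left; rw [show x + 2 = 4 * 4 ^ k + 1 by omega, hend]; linarith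
    · rw [hhalf] at hs
      refine (ineqA hz ?_ ?_ hq.2 hp.le (by positivity) hs).trans
        (by rw [div_eq_mul_one_div] at hv; linarith)
      · rw [e, ← hhalf]; exact one_div_le_one_div_of_le (by positivity) (by linarith)
      · rw [e]
        have := one_div_le_one_div_of_le (show (0 : ℝ) < 2 ^ k by positivity)
          (show (2 : ℝ) ^ k ≤ 1 + 2 ^ k by linarith)
        linarith
  · have he := ee_bd (k := k) (x := x + 2) (by omega)
    have e : pb WW (4 ^ k + 1) x ≤ 1 / (8 * (2 ^ k) ^ 3) := by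
      rw [pb, W_odd (k := k) (by omega) (by omega) (by omega), W_even hx x0 x1,
        div_le_div_iff₀ (by positivity) (by positivity)]
      nlinarith [pow_pos (show (0 : ℝ) < 2 ^ k by positivity) 5,
        pow_pos (show (0 : ℝ) < 2 ^ k by positivity) 8]
    refine ⟨1, 1, ee k (x + 2) + 2563 / 2 ^ k, one _ _, one _ _,
      ⟨by have := he.1; positivity, Or.inr ?_⟩, ?_⟩
    · by_cases h1 : x + 2 < 4 * 4 ^ k
      · exact Or.inl ⟨k, hk, by omega, h1, Or.inr (Or.inl ⟨rfl, by omega, le_rfl⟩)⟩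
      · rw [show x + 2 = 4 * 4 ^ k by omega]
        exact Or.inr (entry2 hk (by rw [eend, zero_add]))
    · refine (ineqB hq.1 hq.2 (by have := he.1; positivity)).trans ?_
      linarith
  · have hp := hh_pos (k := k) (x := x + 2) (by omega)
    have hs := hh_step (k := k) (x := x) (by omega)
    have he := ee_bd (k := k) (x := x + 1) (by omega)
    have e : pb WW (4 * 4 ^ k) x = 16 / (16 + 2 ^ k) := by
      rw [pb, ← pow_succ', W_trap (by omega), W_odd hx x0 x1, pow_succ]; field_simp; ring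
    refine ⟨1, 2049 * (1 / 2 ^ k), hh k (x + 2) + 512 * (1 / 2 ^ k) + 2049 * (1 / 2 ^ k),
      one _ _, ⟨by positivity, Or.inr ?_⟩, ⟨by positivity, ?_⟩, ?_⟩
    · by_cases h1 : x + 1 < 4 * 4 ^ k
      · exact Or.inl ⟨k, hk, by omega, h1, Or.inr (Or.inr (Or.inr ⟨rfl, by omega, by
          rw [div_eq_mul_one_div]; linarith⟩))⟩
      · rw [show x + 1 = 4 * 4 ^ k by omega]
        exact Or.inr (entry' hk (by rw [div_eq_mul_one_div]; linarith))
    · by_cases h1 : x + 2 < 4 * 4 ^ k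
      · exact Or.inr (Or.inl ⟨k, hk, by omega, h1, Or.inr (Or.inr (Or.inl ⟨rfl, by omega, by
          rw [div_eq_mul_one_div]; linarith⟩))⟩)
      · left; rw [show x + 2 = 4 * 4 ^ k + 1 by omega, hend]; linarith
    · rw [hhalf] at hs
      refine (ineqA hz ?_ ?_ hq.2 hp.le (by positivity) hs).trans
        (by rw [div_eq_mul_one_div] at hv; linarith)
      · rw [e, ← hhalf, div_le_div_iff₀ (by positivity) (by positivity)]; linarith
      · rw [e, mul_one_div]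
        exact div_le_div_of_nonneg_left (by norm_num) (by positivity) (by linarith)
  · have he := ee_bd (k := k) (x := x + 2) (by omega)
    have e : pb WW (4 * 4 ^ k + 1) x ≤ 1 / (8 * (2 ^ k) ^ 3) := by
      rw [pb, W_odd (k := k + 1) (by omega) (by rw [pow_succ]; omega) (by rw [pow_succ]; omega),
        W_even hx x0 x1, div_le_div_iff₀ (by positivity) (by positivity), pow_succ 2 k]
      nlinarith [pow_pos (show (0 : ℝ) < 2 ^ k by positivity) 5]
    refine ⟨1, 1, ee k (x + 2) + 2048 / 2 ^ k, one _ _, one _ _,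
      ⟨by have := he.1; positivity, Or.inr ?_⟩, ?_⟩
    · by_cases h1 : x + 2 < 4 * 4 ^ k
      · exact Or.inl ⟨k, hk, by omega, h1, Or.inr (Or.inr (Or.inr ⟨rfl, by omega, le_rfl⟩))⟩
      · rw [show x + 2 = 4 * 4 ^ k by omega]
        exact Or.inr (entry' hk (by rw [eend, zero_add]))
    · refine (ineqB hq.1 hq.2 (by have := he.1; positivity)).trans ?_
      linarith

lemma Bd_symm {B R : ℕ} {v : ℝ} (h : Bd B R v) : Bd R B v := ⟨h.1, h.2.imp id Or.symm⟩

lemma Cert_step {B R : ℕ} {v : ℝ} (h : Cert B R v) : ∃ a b c, Bd (B + 2) R a ∧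
    Bd (B + 1) (R + 1) b ∧ Bd B (R + 2) c ∧
    pb WW B R ^ 2 * a + 2 * pb WW B R * (1 - pb WW B R) * b + (1 - pb WW B R) ^ 2 * c ≤ v := by
  rcases h with h | h
  · exact CC_step h
  · obtain ⟨a, b, c, h1, h2, h3, h4⟩ := CC_step h
    refine ⟨c, b, a, Bd_symm h3, Bd_symm h2, Bd_symm h1, ?_⟩
    have e : pb WW R B = 1 - pb WW B R := by
      have := WW_pos B; have := WW_pos R
      unfold pb; field_simp; ring
    rw [e] at h4
    linarith

lemma Cert_bal {B R : ℕ} {v : ℝ} (h : Cert B R v) : B ≤ 5 * R ∧ R ≤ 5 * B := by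
  rcases h with ⟨k, hk, x0, x1, h⟩ | ⟨k, hk, x0, x1, h⟩ <;> omega

open Classical in
noncomputable def mk (B R : ℕ) : Option (ℕ × ℕ) := if ∃ v, Cert B R v then some (B, R) else none

noncomputable def step : Option (ℕ × ℕ) → (Fin 2 → I) → Option (ℕ × ℕ)
  | none, _ => none
  | some s, u => mk (s.1 + ∑ i, if (u i : ℝ) < pb WW s.1 s.2 then 1 else 0)
      (s.2 + ∑ i, if (u i : ℝ) < pb WW s.1 s.2 then 0 else 1)

noncomputable def ph : Option (ℕ × ℕ) → ℝ≥0∞
  | none => 1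
  | some s => min 1 (⨅ (v : ℝ) (_ : Cert s.1 s.2 v), ENNReal.ofReal v)

lemma ph_le_one (s : Option (ℕ × ℕ)) : ph s ≤ 1 := by
  cases s
  · exact le_rfl
  · exact min_le_left _ _

lemma ph_mk {B R : ℕ} {v : ℝ} (h : Bd B R v) : ph (mk B R) ≤ ENNReal.ofReal v := by
  rcases h.2 with h1 | h1
  · exact (ph_le_one _).trans (ENNReal.one_le_ofReal.2 h1)
  · rw [mk, if_pos ⟨v, h1⟩]
    exact (min_le_right _ _).trans (iInf₂_le_of_le v h1 le_rfl)

instance : MeasurableSpace (Option (ℕ × ℕ)) := ⊤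

instance : DiscreteMeasurableSpace (Option (ℕ × ℕ)) := ⟨fun _ => trivial⟩

lemma meas_step (s : Option (ℕ × ℕ)) : Measurable (step s) := by
  cases s with
  | none => exact measurable_const
  | some s =>
    have h : ∀ i : Fin 2, MeasurableSet {u : Fin 2 → I | (u i : ℝ) < pb WW s.1 s.2} := fun i =>
      measurableSet_lt (by fun_prop) measurable_const
    refine (Measurable.of_discrete (f := fun p : ℕ × ℕ => mk p.1 p.2)).comp
      (f := fun u : Fin 2 → I => (s.1 + ∑ i, if (u i : ℝ) < pb WW s.1 s.2 then 1 else 0,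
        s.2 + ∑ i, if (u i : ℝ) < pb WW s.1 s.2 then 0 else 1)) (Measurable.prodMk ?_ ?_)
    · exact (Finset.measurable_fun_sum _ fun i _ =>
        Measurable.ite (h i) measurable_const measurable_const).const_add _
    · exact (Finset.measurable_fun_sum _ fun i _ =>
        Measurable.ite (h i) measurable_const measurable_const).const_add _

lemma step_int (s : Option (ℕ × ℕ)) :
    ∫⁻ u, ph (step s u) ∂(Measure.pi fun _ : Fin 2 => (volume : Measure I)) ≤ ph s := by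
  cases s with
  | none => simp [step, ph]
  | some s =>
    refine le_min ((lintegral_mono fun u => ph_le_one _).trans (by simp)) (le_iInf₂ fun v hv => ?_)
    obtain ⟨a, b, c, h1, h2, h3, h4⟩ := Cert_step hv
    have hq := pb_bd s.1 s.2
    set q : I := ⟨pb WW s.1 s.2, hq⟩ with hq'
    have key : ∀ u : Fin 2 → I, ph (step (some s) u) ≤
        (Set.univ.pi ![Set.Iio q, Set.Iio q]).indicator (fun _ => ENNReal.ofReal a) u +
        (Set.univ.pi ![Set.Iio q, Set.Ici q]).indicator (fun _ => ENNReal.ofReal b) u +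
        (Set.univ.pi ![Set.Ici q, Set.Iio q]).indicator (fun _ => ENNReal.ofReal b) u +
        (Set.univ.pi ![Set.Ici q, Set.Ici q]).indicator (fun _ => ENNReal.ofReal c) u := by
      intro u
      have e : ∀ i, (u i : ℝ) < pb WW s.1 s.2 ↔ u i < q := fun i => Iff.rfl
      simp only [step, Fin.sum_univ_two, e, Set.indicator, Set.mem_univ_pi, Fin.forall_fin_two,
        Matrix.cons_val_zero, Matrix.cons_val_one, Set.mem_Iio, Set.mem_Ici, ← not_lt]
      by_cases u0 : u 0 < q <;> by_cases u1 : u 1 < q <;> simp [u0, u1]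
      · exact ph_mk h1
      · exact ph_mk h2
      · exact ph_mk h2
      · exact ph_mk h3
    refine (lintegral_mono key).trans ?_
    have m : ∀ A B : Set I, MeasurableSet A → MeasurableSet B →
        MeasurableSet (Set.univ.pi ![A, B]) := fun A B hA hB =>
      MeasurableSet.univ_pi (Fin.forall_fin_two.2 ⟨hA, hB⟩)
    have mi := @measurableSet_Iio I _ _ _ _ q _
    have mc := @measurableSet_Ici I _ _ _ _ q _
    rw [lintegral_add_right _ (measurable_const.indicator (m _ _ mc mc)),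
      lintegral_add_right _ (measurable_const.indicator (m _ _ mc mi)),
      lintegral_add_right _ (measurable_const.indicator (m _ _ mi mc)),
      lintegral_indicator_const (m _ _ mi mi), lintegral_indicator_const (m _ _ mi mc),
      lintegral_indicator_const (m _ _ mc mi), lintegral_indicator_const (m _ _ mc mc)]
    simp only [Measure.pi_pi, Fin.prod_univ_two, Matrix.cons_val_zero, Matrix.cons_val_one,
      unitInterval.volume_Iio, unitInterval.volume_Ici]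
    have a0 := h1.1
    have b0 := h2.1
    have c0 := h3.1
    have q0 : (0 : ℝ) ≤ q := hq.1
    have q1 : (0 : ℝ) ≤ 1 - q := sub_nonneg.2 hq.2
    simp (disch := positivity) only [← ENNReal.ofReal_mul, ← ENNReal.ofReal_add]
    apply ENNReal.ofReal_le_ofReal
    show a * (pb WW s.1 s.2 * pb WW s.1 s.2) + b * (pb WW s.1 s.2 * (1 - pb WW s.1 s.2)) +
      b * ((1 - pb WW s.1 s.2) * pb WW s.1 s.2) + c * ((1 - pb WW s.1 s.2) * (1 - pb WW s.1 s.2)) ≤ v
    linarith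

def s0 : (Fin 2 → ℕ) × (Fin 2 → ℕ) := (![4 ^ 13, 0], ![4 ^ 13 + 1, 0])

noncomputable def YY (ω : ℕ → Fin 2 → I) (n : ℕ) : Option (ℕ × ℕ) :=
  H18Markov.chain step (some (4 ^ 13, 4 ^ 13 + 1)) ω n

lemma YY_spec (ω : ℕ → Fin 2 → I) (n : ℕ) : YY ω n = none ∨
    (YY ω n = some (∑ j, (urn WW s0 ω n).1 j, ∑ j, (urn WW s0 ω n).2 j) ∧
      ∃ v, Cert (∑ j, (urn WW s0 ω n).1 j) (∑ j, (urn WW s0 ω n).2 j) v) := by
  induction n with
  | zero =>
    right
    simp only [urn, s0, Fin.sum_univ_two, Matrix.cons_val_zero, Matrix.cons_val_one, add_zero]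
    exact ⟨rfl, _, Or.inl (entry (by norm_num) le_rfl)⟩
  | succ n ih =>
    have e : YY ω (n + 1) = step (YY ω n) (ω n) := rfl
    rcases ih with h | ⟨h, _⟩
    · left; rw [e, h]; rfl
    · rw [e, h]
      simp only [step, urn, Finset.sum_add_distrib, mk]
      split_ifs with h2
      · exact Or.inr ⟨rfl, h2⟩
      · exact Or.inl rfl

lemma total (ω : ℕ → Fin 2 → I) (n : ℕ) :
    n ≤ ∑ j, (urn WW s0 ω n).1 j + ∑ j, (urn WW s0 ω n).2 j := by
  induction n with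
  | zero => exact Nat.zero_le _
  | succ n ih =>
    simp only [urn, Fin.sum_univ_two] at ih ⊢
    split_ifs <;> omega

lemma const_of {f : ℕ → ℕ} (h : ∀ᶠ n in atTop, f (n + 1) = f n) : ∃ N, ∀ n, f (N + n) = f N := by
  obtain ⟨N, hN⟩ := eventually_atTop.1 h
  refine ⟨N, fun n => ?_⟩
  induction n with
  | zero => rfl
  | succ n ih => rw [← add_assoc, hN _ (by omega), ih]

lemma mono_sub : monopoly WW s0 ⊆ ⋃ n, {ω | YY ω n = none} := by
  intro ω hω
  by_contra hc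
  simp only [Set.mem_iUnion, Set.mem_ofPred_eq, not_exists] at hc
  have hb : ∀ n, ∑ j, (urn WW s0 ω n).1 j ≤ 5 * ∑ j, (urn WW s0 ω n).2 j ∧
      ∑ j, (urn WW s0 ω n).2 j ≤ 5 * ∑ j, (urn WW s0 ω n).1 j := fun n => by
    obtain ⟨_, v, hv⟩ := (YY_spec ω n).resolve_left (hc n)
    exact Cert_bal hv
  rcases hω with h | h
  · obtain ⟨N, hN⟩ := const_of (f := fun n => ∑ j, (urn WW s0 ω n).2 j) h
    have h1 := hN (6 * ∑ j, (urn WW s0 ω N).2 j + 1)
    have h2 := hb (N + (6 * ∑ j, (urn WW s0 ω N).2 j + 1))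
    have h3 := total ω (N + (6 * ∑ j, (urn WW s0 ω N).2 j + 1))
    omega
  · obtain ⟨N, hN⟩ := const_of (f := fun n => ∑ j, (urn WW s0 ω n).1 j) h
    have h1 := hN (6 * ∑ j, (urn WW s0 ω N).1 j + 1)
    have h2 := hb (N + (6 * ∑ j, (urn WW s0 ω N).1 j + 1))
    have h3 := total ω (N + (6 * ∑ j, (urn WW s0 ω N).1 j + 1))
    omega

theorem result : ∃ W : ℕ → ℝ, (∀ n, 0 < W n) ∧ Summable (fun n => 1 / W n) ∧
    ∃ s : (Fin 2 → ℕ) × (Fin 2 → ℕ), 1 ≤ ∑ j, s.1 j + ∑ j, s.2 j ∧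
      unif 2 (monopoly W s) ≤ 1 / 2 := by
  refine ⟨WW, WW_pos, WW_sum, s0, by decide, (measure_mono mono_sub).trans ?_⟩
  rw [Monotone.measure_iUnion]
  · refine iSup_le fun n => ?_
    have h := H18Markov.superm (Measure.pi fun _ : Fin 2 => (volume : Measure I)) meas_step ph
      step_int (some (4 ^ 13, 4 ^ 13 + 1)) n
    have hm : MeasurableSet {ω | YY ω n = none} :=
      H18Markov.meas_chain meas_step _ n (measurableSet_singleton none)
    rw [← lintegral_indicator_one hm]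
    refine (lintegral_mono fun ω => ?_).trans (h.trans ?_)
    · by_cases h1 : YY ω n = none
      · rw [Set.indicator_of_mem (by exact h1)]
        unfold YY at h1
        rw [h1]
        exact le_rfl
      · rw [Set.indicator_of_notMem (by exact h1)]
        exact zero_le
    · refine (min_le_right _ _).trans (iInf₂_le_of_le (1 / 2)
        (Or.inl (entry (by norm_num) (by norm_num))) ?_)
      rw [ENNReal.ofReal_div_of_pos (by norm_num)]
      simp
  · refine monotone_nat_of_le_succ fun n ω h => ?_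
    show step (YY ω n) (ω n) = none
    rw [show YY ω n = none from h]
    rfl

end Pool.Agent.Results.MP_0b3b8e_pr.NoMonopoly
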